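import Pool.Agent.Helper18.UW.GoalsP

/-!
# UW-NU: the choice of the numbers
-/

set_option autoImplicit false

namespace Pool.Agent.Helper34.UW

open Pool.Agent.Helper18.UW

/-- the number `l` -/
theorem nu_l {μ R Lg : ℕ} (hμ : 1 ≤ μ) (hR : 1 ≤ R) (h3 : 2 ^ 120 * Lg ^ 3 * μ ≤ R)
    (h4 : R ≤ 28 * μ ^ 2) :
    ∃ l : ℕ, 1 ≤ l ∧ 4 * μ ^ 2 ≤ l * R ∧ l * R ≤ 32 * μ ^ 2 ∧ 2 ^ 115 * Lg ^ 3 * l ≤ μ := by
  have e := Nat.div_add_mod (4 * μ ^ 2 - 1) R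
  have e2 := Nat.mod_lt (4 * μ ^ 2 - 1) hR
  have hp : 1 ≤ μ ^ 2 := Nat.one_le_pow _ _ hμ
  obtain ⟨l, l1, l2, l3⟩ : ∃ l : ℕ, 1 ≤ l ∧ 4 * μ ^ 2 ≤ l * R ∧ l * R ≤ 32 * μ ^ 2 := by
    generalize (4 * μ ^ 2 - 1) / R = k at *
    generalize (4 * μ ^ 2 - 1) % R = r at *
    have e3 : (k + 1) * R = R * k + R := by ring
    exact ⟨k + 1, by omega, by omega, by omega⟩
  refine ⟨l, l1, l2, l3, ?_⟩
  have h : (2 ^ 115 * Lg ^ 3 * l) * (2 ^ 5 * μ) ≤ μ * (2 ^ 5 * μ) := by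
    calc (2 ^ 115 * Lg ^ 3 * l) * (2 ^ 5 * μ) = l * (2 ^ 120 * Lg ^ 3 * μ) := by ring
      _ ≤ l * R := Nat.mul_le_mul_left _ h3
      _ ≤ 32 * μ ^ 2 := l3
      _ = μ * (2 ^ 5 * μ) := by ring
  exact Nat.le_of_mul_le_mul_right h (by positivity)

/-- the number `b` -/
theorem nu_b {μ Lg l : ℕ} (hl1 : 1 ≤ l) (hLg : 1 ≤ Lg) (hl : 2 ^ 115 * Lg ^ 3 * l ≤ μ) :
    ∃ b : ℕ, 2 ^ 82 * Lg ≤ b ∧ 2 ^ 33 * Lg ^ 2 * (b * l) ≤ μ ∧ μ ≤ 2 ^ 34 * Lg ^ 2 * (b * l) := by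
  have hX : 0 < 2 ^ 33 * Lg ^ 2 * l := by positivity
  have b1 : 2 ^ 82 * Lg ≤ μ / (2 ^ 33 * Lg ^ 2 * l) := by
    rw [Nat.le_div_iff_mul_le hX]
    calc 2 ^ 82 * Lg * (2 ^ 33 * Lg ^ 2 * l) = 2 ^ 115 * Lg ^ 3 * l := by ring
      _ ≤ μ := hl
  have b2 := Nat.div_mul_le_self μ (2 ^ 33 * Lg ^ 2 * l)
  have b3 := Nat.lt_mul_div_succ μ hX
  generalize μ / (2 ^ 33 * Lg ^ 2 * l) = b at *
  refine ⟨b, b1, ?_, ?_⟩
  · calc 2 ^ 33 * Lg ^ 2 * (b * l) = b * (2 ^ 33 * Lg ^ 2 * l) := by ring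
      _ ≤ μ := b2
  · have hb : 1 ≤ b := by omega
    calc μ ≤ (2 ^ 33 * Lg ^ 2 * l) * (b + 1) := b3.le
      _ ≤ (2 ^ 33 * Lg ^ 2 * l) * (2 * b) := Nat.mul_le_mul_left _ (by omega)
      _ = 2 ^ 34 * Lg ^ 2 * (b * l) := by ring

/-- the number `w` (`V` is `l W`) -/
theorem nu_w {μ Lg B V : ℕ} (hLg : 1 ≤ Lg) (hμ : 2 ^ 115 * Lg ^ 3 ≤ μ)
    (B1 : 2 ^ 33 * Lg ^ 2 * B ≤ μ) (B2 : μ ≤ 2 ^ 34 * Lg ^ 2 * B)
    (W1 : 2 ^ 82 * Lg ^ 2 * μ ≤ V) (W2 : V ≤ 64 * μ ^ 2) :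
    ∃ w : ℕ, 3 ≤ w ∧ 4 * w ≤ μ ∧ 2 ^ 26 * μ ≤ w * (B + w) ∧ 2 ^ 14 * V ≤ w ^ 2 * (B + w) ∧
      w * (2 ^ 27 * μ + B * w) ≤ 2 ^ 20 * V := by
  have hL2 : 1 ≤ Lg ^ 2 := Nat.one_le_pow _ _ hLg
  have hL3 : Lg ^ 2 ≤ Lg ^ 3 := Nat.pow_le_pow_right hLg (by norm_num)
  have hμ2 : 2 ^ 115 * Lg ^ 2 ≤ μ := (Nat.mul_le_mul_left _ hL3).trans hμ
  have hμ1 : 2 ^ 115 ≤ μ := by omega
  have hBμ : 2 ^ 33 * B ≤ μ := by
    calc 2 ^ 33 * B = 2 ^ 33 * 1 * B := by ring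
      _ ≤ 2 ^ 33 * Lg ^ 2 * B := Nat.mul_le_mul_right _ (Nat.mul_le_mul_left _ hL2)
      _ ≤ μ := B1
  have hVμ : 2 ^ 82 * μ ≤ V := by
    calc 2 ^ 82 * μ = 2 ^ 82 * 1 * μ := by ring
      _ ≤ 2 ^ 82 * Lg ^ 2 * μ := Nat.mul_le_mul_right _ (Nat.mul_le_mul_left _ hL2)
      _ ≤ V := W1
  have hex : ∃ w, 2 ^ 26 * μ ≤ w * (B + w) ∧ 2 ^ 14 * V ≤ w ^ 2 * (B + w) := by
    refine ⟨2 ^ 26 * μ + 2 ^ 14 * V, ?_, ?_⟩
    · have h : 1 ≤ B + (2 ^ 26 * μ + 2 ^ 14 * V) := by omega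
      calc 2 ^ 26 * μ ≤ (2 ^ 26 * μ + 2 ^ 14 * V) * 1 := by omega
        _ ≤ _ := Nat.mul_le_mul_left _ h
    · have h : 1 ≤ B + (2 ^ 26 * μ + 2 ^ 14 * V) := by omega
      have h' : 1 ≤ 2 ^ 26 * μ + 2 ^ 14 * V := by omega
      calc 2 ^ 14 * V ≤ (2 ^ 26 * μ + 2 ^ 14 * V) * 1 * 1 := by omega
        _ ≤ (2 ^ 26 * μ + 2 ^ 14 * V) * (2 ^ 26 * μ + 2 ^ 14 * V) *
            (B + (2 ^ 26 * μ + 2 ^ 14 * V)) := Nat.mul_le_mul (Nat.mul_le_mul_left _ h') h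
        _ = _ := by ring
  classical
  obtain ⟨w1, w2⟩ := Nat.find_spec hex
  have hmin : ∀ u < Nat.find hex, ¬ (2 ^ 26 * μ ≤ u * (B + u) ∧ 2 ^ 14 * V ≤ u ^ 2 * (B + u)) :=
    fun u hu => Nat.find_min hex hu
  generalize Nat.find hex = w at *
  have w3 : 3 ≤ w := by
    by_contra hc
    have h2 : w ≤ 2 := by omega
    have h3 : w ^ 2 * (B + w) ≤ 2 ^ 2 * (B + 2) :=
      Nat.mul_le_mul (Nat.pow_le_pow_left h2 2) (by omega)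
    omega
  obtain ⟨u, rfl⟩ : ∃ u, w = u + 1 := ⟨w - 1, by omega⟩
  have hu := hmin u (Nat.lt_succ_self u)
  have hu2 : 2 ≤ u := by omega
  rcases Nat.lt_or_ge (u * (B + u)) (2 ^ 26 * μ) with hA | hA
  · -- the first condition is critical
    have hw : u < 2 ^ 60 * Lg ^ 2 := by
      by_contra hc
      have hc : 2 ^ 60 * Lg ^ 2 ≤ u := by omega
      have h2 : 2 ^ 26 * μ ≤ u * (B + u) := by
        calc 2 ^ 26 * μ ≤ 2 ^ 26 * (2 ^ 34 * Lg ^ 2 * B) := Nat.mul_le_mul_left _ B2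
          _ = (2 ^ 60 * Lg ^ 2) * B := by ring
          _ ≤ u * B := Nat.mul_le_mul_right _ hc
          _ ≤ u * (B + u) := Nat.mul_le_mul_left _ (by omega)
      omega
    have hw' : u + 1 ≤ 2 ^ 60 * Lg ^ 2 := hw
    refine ⟨u + 1, w3, by omega, w1, w2, ?_⟩
    have h1 : B * (u + 1) ≤ 2 ^ 27 * μ := by
      calc B * (u + 1) ≤ B * (2 ^ 60 * Lg ^ 2) := Nat.mul_le_mul_left _ hw'
        _ = 2 ^ 27 * (2 ^ 33 * Lg ^ 2 * B) := by ring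
        _ ≤ 2 ^ 27 * μ := Nat.mul_le_mul_left _ B1
    calc (u + 1) * (2 ^ 27 * μ + B * (u + 1)) ≤ (2 ^ 60 * Lg ^ 2) * (2 ^ 28 * μ) :=
          Nat.mul_le_mul hw' (by omega)
      _ = 2 ^ 6 * (2 ^ 82 * Lg ^ 2 * μ) := by ring
      _ ≤ 2 ^ 6 * V := Nat.mul_le_mul_left _ W1
      _ ≤ 2 ^ 20 * V := Nat.mul_le_mul_right _ (by norm_num)
  · -- the second condition is critical
    have hB : u ^ 2 * (B + u) < 2 ^ 14 * V := by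
      by_contra hc
      exact hu ⟨hA, by omega⟩
    have h8 : (u + 1) ^ 2 * (B + (u + 1)) ≤ 8 * (u ^ 2 * (B + u)) := by
      have h1 : (u + 1) ^ 2 ≤ 4 * u ^ 2 := by nlinarith
      have h2 : B + (u + 1) ≤ 2 * (B + u) := by omega
      calc (u + 1) ^ 2 * (B + (u + 1)) ≤ (4 * u ^ 2) * (2 * (B + u)) := Nat.mul_le_mul h1 h2
        _ = 8 * (u ^ 2 * (B + u)) := by ring
    refine ⟨u + 1, w3, ?_, w1, w2, ?_⟩
    · by_contra hc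
      have hc1 : μ ≤ 8 * u := by omega
      have h1 : 2 ^ 20 * μ ^ 2 < u ^ 2 * (B + u) := by
        have h2 : 2 ^ 6 * u ^ 2 * 2 ^ 20 < u ^ 2 * u := by
          have h3 : 2 ^ 26 < u := by omega
          have h4 : 0 < u ^ 2 := by positivity
          calc 2 ^ 6 * u ^ 2 * 2 ^ 20 = u ^ 2 * 2 ^ 26 := by ring
            _ < u ^ 2 * u := Nat.mul_lt_mul_of_pos_left h3 h4
        calc 2 ^ 20 * μ ^ 2 ≤ 2 ^ 20 * (8 * u) ^ 2 :=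
              Nat.mul_le_mul_left _ (Nat.pow_le_pow_left hc1 2)
          _ = 2 ^ 6 * u ^ 2 * 2 ^ 20 := by ring
          _ < u ^ 2 * u := h2
          _ ≤ u ^ 2 * (B + u) := Nat.mul_le_mul_left _ (by omega)
      have h5 : 2 ^ 14 * V ≤ 2 ^ 20 * μ ^ 2 := by
        calc 2 ^ 14 * V ≤ 2 ^ 14 * (64 * μ ^ 2) := Nat.mul_le_mul_left _ W2
          _ = 2 ^ 20 * μ ^ 2 := by ring
      omega
    · have h1 : (u + 1) * (2 ^ 27 * μ) ≤ 2 * ((u + 1) ^ 2 * (B + (u + 1))) := by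
        calc (u + 1) * (2 ^ 27 * μ) = 2 * ((u + 1) * (2 ^ 26 * μ)) := by ring
          _ ≤ 2 * ((u + 1) * ((u + 1) * (B + (u + 1)))) :=
              Nat.mul_le_mul_left _ (Nat.mul_le_mul_left _ w1)
          _ = 2 * ((u + 1) ^ 2 * (B + (u + 1))) := by ring
      have h2 : (u + 1) * (B * (u + 1)) ≤ (u + 1) ^ 2 * (B + (u + 1)) := by
        calc (u + 1) * (B * (u + 1)) = (u + 1) ^ 2 * B := by ring
          _ ≤ (u + 1) ^ 2 * (B + (u + 1)) := Nat.mul_le_mul_left _ (by omega)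
      calc (u + 1) * (2 ^ 27 * μ + B * (u + 1)) =
            (u + 1) * (2 ^ 27 * μ) + (u + 1) * (B * (u + 1)) := by ring
        _ ≤ 2 ^ 20 * V := by omega

/-- the numbers `v`, `q` -/
theorem nu_v {B w : ℕ} (hw : 3 ≤ w) (hB : 1280 ≤ B) :
    ∃ q v : ℕ, 1 ≤ v ∧ 1280 * (2 ^ q * v) ≤ B ∧ B ≤ 2560 * (2 ^ q * v) ∧ 2 * v < w ∧ 2 ^ q ≤ B := by
  obtain ⟨v, hv1, hv2, hv3⟩ : ∃ v, 1 ≤ v ∧ 2 * v < w ∧ 1280 * v ≤ B := ⟨1, by omega⟩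
  have h0 : 0 < 1280 * v := by omega
  have h1 : 1 ≤ B / (1280 * v) := by
    rw [Nat.le_div_iff_mul_le h0]
    omega
  have h2 := Nat.pow_log_le_self 2 (x := B / (1280 * v)) (by omega)
  have h3 := Nat.lt_pow_succ_log_self (b := 2) (by norm_num) (B / (1280 * v))
  generalize Nat.log 2 (B / (1280 * v)) = q at *
  have h4 : 2 ^ q * (1280 * v) ≤ B := by
    rw [← Nat.le_div_iff_mul_le h0]
    exact h2
  have h5 : B < 2 ^ (q + 1) * (1280 * v) := by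
    rw [← Nat.div_lt_iff_lt_mul h0]
    exact h3
  refine ⟨q, v, hv1, ?_, ?_, hv2, ?_⟩
  · calc 1280 * (2 ^ q * v) = 2 ^ q * (1280 * v) := by ring
      _ ≤ B := h4
  · calc B ≤ 2 ^ (q + 1) * (1280 * v) := h5.le
      _ = 2560 * (2 ^ q * v) := by ring
  · calc 2 ^ q = 2 ^ q * 1 := (mul_one _).symm
      _ ≤ 2 ^ q * (1280 * v) := Nat.mul_le_mul_left _ (by omega)
      _ ≤ B := h4

theorem goalNU : GoalNU := by
  intro μ δ R W Lg h1 hR h3 h4 h5 h6 h7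
  have hμ : 1 ≤ μ := by
    by_contra hc
    have : μ = 0 := by omega
    subst this
    omega
  have hLg : 7 ≤ Lg := by
    by_contra hc
    have h : 2 ^ Lg ≤ 2 ^ 6 := Nat.pow_le_pow_right (by norm_num) (by omega)
    omega
  obtain ⟨l, l1, l2, l3, l4⟩ := nu_l hμ hR h3 h4
  obtain ⟨b, b1, b2, b3⟩ := nu_b l1 (by omega) l4
  have hμ3 : 2 ^ 115 * Lg ^ 3 ≤ μ := by
    calc 2 ^ 115 * Lg ^ 3 = 2 ^ 115 * Lg ^ 3 * 1 := (mul_one _).symm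
      _ ≤ 2 ^ 115 * Lg ^ 3 * l := Nat.mul_le_mul_left _ l1
      _ ≤ μ := l4
  have W1 : 2 ^ 82 * Lg ^ 2 * μ ≤ l * W := by
    have h : (2 ^ 82 * Lg ^ 2 * μ) * μ ≤ (l * W) * μ := by
      calc (2 ^ 82 * Lg ^ 2 * μ) * μ = 2 ^ 80 * Lg ^ 2 * (4 * μ ^ 2) := by ring
        _ ≤ 2 ^ 80 * Lg ^ 2 * (l * R) := Nat.mul_le_mul_left _ l2
        _ = l * (2 ^ 80 * Lg ^ 2 * R) := by ring
        _ ≤ l * (μ * W) := Nat.mul_le_mul_left _ h7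
        _ = (l * W) * μ := by ring
    exact Nat.le_of_mul_le_mul_right h hμ
  have W2 : l * W ≤ 64 * μ ^ 2 := by
    calc l * W ≤ l * (2 * R) := Nat.mul_le_mul_left _ h6
      _ = 2 * (l * R) := by ring
      _ ≤ 2 * (32 * μ ^ 2) := Nat.mul_le_mul_left _ l3
      _ = 64 * μ ^ 2 := by ring
  obtain ⟨w, w1, w2, w3, w4, w5⟩ := nu_w (by omega) hμ3 b2 b3 W1 W2
  have hBb : b ≤ b * l := Nat.le_mul_of_pos_right _ l1
  obtain ⟨q, v, v1, v2, v3, v4, v5⟩ := nu_v (B := b * l) w1 (by omega)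
  have hL2 : 1 ≤ Lg ^ 2 := Nat.one_le_pow _ _ (by omega)
  have hBμ : b * l ≤ μ := by
    calc b * l = 1 * 1 * (b * l) := by ring
      _ ≤ 2 ^ 33 * Lg ^ 2 * (b * l) := Nat.mul_le_mul_right _ (Nat.mul_le_mul (by norm_num) hL2)
      _ ≤ μ := b2
  have hq : q + 1 ≤ Lg := by
    have h : 2 ^ (q + 7) ≤ 2 ^ Lg := by
      calc 2 ^ (q + 7) = 128 * 2 ^ q := by ring
        _ ≤ 128 * μ := Nat.mul_le_mul_left _ (v5.trans hBμ)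
        _ ≤ 2 ^ Lg := h1
    have := (Nat.pow_le_pow_iff_right (by norm_num : 1 < 2)).1 h
    omega
  have hb2 : 2 ^ 33 * b * (q + 1) ^ 2 * l ≤ μ := by
    calc 2 ^ 33 * b * (q + 1) ^ 2 * l = 2 ^ 33 * (q + 1) ^ 2 * (b * l) := by ring
      _ ≤ 2 ^ 33 * Lg ^ 2 * (b * l) :=
          Nat.mul_le_mul_right _ (Nat.mul_le_mul_left _ (Nat.pow_le_pow_left hq 2))
      _ ≤ μ := b2
  refine ⟨l, b, q, v, w, ?_, ?_, l2, l3, v1, v2, v3, v4, w2, w3, ?_, ?_, ?_⟩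
  · exact
      { l1 := l1
        R1 := by
          calc 100 * μ ≤ 2 ^ 120 * Lg ^ 3 * μ :=
                Nat.mul_le_mul_right _ (by
                  have : 1 ≤ Lg ^ 3 := Nat.one_le_pow _ _ (by omega)
                  omega)
            _ ≤ R := h3
        L1 := by omega
        qL := hq
        hK := rfl
        b1 := by omega
        b2 := hb2
        hL := by
          have h : 2 ^ Lg * 1 ≤ 2 ^ Lg * l := Nat.mul_le_mul_left _ l1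
          omega }
  · have h8 : 2 ^ 60 * Lg ^ 2 * δ ≤ 2 ^ 34 * Lg ^ 2 * (2560 * (2 ^ q * v)) :=
      h5.trans (b3.trans (Nat.mul_le_mul_left _ v3))
    have h9 : (2 ^ 26 * δ) * (2 ^ 34 * Lg ^ 2) ≤ (2560 * (2 ^ q * v)) * (2 ^ 34 * Lg ^ 2) := by
      calc (2 ^ 26 * δ) * (2 ^ 34 * Lg ^ 2) = 2 ^ 60 * Lg ^ 2 * δ := by ring
        _ ≤ 2 ^ 34 * Lg ^ 2 * (2560 * (2 ^ q * v)) := h8
        _ = _ := by ring
    have h10 := Nat.le_of_mul_le_mul_right h9 (by positivity)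
    omega
  · calc 2 ^ 14 * l * W = 2 ^ 14 * (l * W) := by ring
      _ ≤ w ^ 2 * (b * l + w) := w4
  · calc w * (2 ^ 27 * μ + b * l * w) ≤ 2 ^ 20 * (l * W) := w5
      _ = 2 ^ 20 * l * W := by ring
  · have h : (2 ^ 35 * (b * (q + 1)) * μ) * l ≤ R * l := by
      calc (2 ^ 35 * (b * (q + 1)) * μ) * l = (2 ^ 33 * b * (q + 1) * l) * (4 * μ) := by ring
        _ ≤ (2 ^ 33 * b * (q + 1) ^ 2 * l) * (4 * μ) :=
            Nat.mul_le_mul_right _ (Nat.mul_le_mul_right _ (Nat.mul_le_mul_left _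
              (Nat.le_self_pow (by norm_num) _)))
        _ ≤ μ * (4 * μ) := Nat.mul_le_mul_right _ hb2
        _ = 4 * μ ^ 2 := by ring
        _ ≤ l * R := l2
        _ = R * l := by ring
    exact Nat.le_of_mul_le_mul_right h l1

end Pool.Agent.Helper34.UW
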