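import Pool.Agent.Helper18.UW.GoalsR
import Pool.Agent.Helper2.EW.E2

/-!
# UW-R2: the real play is stopped
-/

set_option autoImplicit false

namespace Pool.Agent.Helper34.UW

open Finset
open Pool.Agent.Lead.Sh
open Pool.Agent.Helper43.Hw (T na va lz Play aa ac sc oo sk U Dd Sd Pn nx bb np)
open Pool.Agent.Helper43.Gm (Pri st mv nn)
open Pool.Agent.Helper18.EW
open Pool.Agent.Helper18.UW
open Pool.Agent.Helper2.EW (va_congr va_congr')

theorem mono_of {R : ℕ} {κ : ℕ → ℕ} (h : ∀ y, y + 1 < R → κ y ≤ κ (y + 1)) {a b : ℕ} (hab : a ≤ b)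
    (hb : b < R) : κ a ≤ κ b := by
  induction b, hab using Nat.le_induction with
  | base => exact le_rfl
  | succ n hn ih => exact (ih (by omega)).trans (h n hb)

/-- a step of a function which is larger at the end -/
theorem exists_step {κ : ℕ → ℕ} {z : ℕ} (l : ℕ) (h : κ z < κ (z + l)) :
    ∃ τ, z < τ ∧ τ ≤ z + l ∧ κ (τ - 1) < κ τ := by
  induction l with
  | zero => exact absurd h (lt_irrefl _)
  | succ n ih =>
    rcases Nat.lt_or_ge (κ (z + n)) (κ (z + (n + 1))) with h1 | h1
    · refine ⟨z + (n + 1), by omega, le_rfl, ?_⟩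
      have h2 : z + (n + 1) - 1 = z + n := by omega
      rw [h2]
      exact h1
    · obtain ⟨τ, h2, h3, h4⟩ := ih (by omega)
      exact ⟨τ, h2, by omega, h4⟩

/-- the stopped play -/
theorem stop {m : ℕ → ℕ} {R N τ : ℕ} {κ x : ℕ → ℕ} (hP : UPlay m R N κ x) (ht : 1 ≤ τ)
    (hm : 1 ≤ m (κ τ)) (hτ : τ + 1 + m (κ τ) ≤ R) (hk : κ (τ - 1) < κ τ) (hN : κ τ < N) :
    UPlay m R N (fun y => if y < τ then κ y else κ τ)
      (fun y => if y < τ then x y else na (m (κ τ)) R y) ∧
    (∀ z < τ, uz m R N (fun y => if y < τ then κ y else κ τ)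
      (fun y => if y < τ then x y else na (m (κ τ)) R y) z = uz m R N κ x z) ∧
    uz m R N (fun y => if y < τ then κ y else κ τ)
      (fun y => if y < τ then x y else na (m (κ τ)) R y) τ + x τ = uz m R N κ x τ := by
  set κ2 : ℕ → ℕ := fun y => if y < τ then κ y else κ τ with hκ2
  set x2 : ℕ → ℕ := fun y => if y < τ then x y else na (m (κ τ)) R y with hx2
  have k1 : ∀ y, y < τ → κ2 y = κ y := fun y hy => if_pos hy
  have k2 : ∀ y, τ ≤ y → κ2 y = κ τ := fun y hy => if_neg (not_lt.2 hy)
  have x1 : ∀ y, y < τ → x2 y = x y := fun y hy => if_pos hy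
  have x2' : ∀ y, τ ≤ y → x2 y = na (m (κ τ)) R y := fun y hy => if_neg (not_lt.2 hy)
  have kle : ∀ y ≤ τ, κ2 y = κ y := by
    intro y hy
    rcases Nat.lt_or_ge y τ with h | h
    · exact k1 y h
    · rw [k2 y h, le_antisymm hy h]
  refine ⟨?_, ?_, ?_⟩
  · exact
      { mono := by
          intro y hy
          rcases Nat.lt_or_ge (y + 1) τ with h | h
          · rw [k1 y (by omega), k1 _ h]; exact hP.mono y hy
          · rcases Nat.lt_or_ge y τ with h' | h'
            · have h3 : y + 1 = τ := by omega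
              rw [k1 y h', k2 _ h, ← h3]
              exact hP.mono y hy
            · rw [k2 y h', k2 _ h]
        le := by
          intro y hy
          rcases Nat.lt_or_ge y τ with h | h
          · rw [k1 y h]; exact hP.le y hy
          · rw [k2 y h]; exact hN.le
        lt := by
          intro y hy hyN
          rcases Nat.lt_or_ge y τ with h | h
          · rw [k1 y h] at hyN ⊢
            rw [x1 y h]; exact hP.lt y hy hyN
          · rw [k2 y h, x2' y h]; unfold na; omega
        nat := by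
          intro y hy h3
          rcases Nat.lt_or_ge y τ with h | h
          · rw [k1 y h] at h3 ⊢; rw [x1 y h]; exact hP.nat y hy h3
          · rw [k2 y h, x2' y h]
        fin := by
          intro y hy h3
          rcases Nat.lt_or_ge y τ with h | h
          · rw [k1 y h] at h3; rw [x1 y h]; exact hP.fin y hy h3
          · rw [k2 y h] at h3; omega
        inc := by
          intro y hy h3 h4
          rcases Nat.lt_or_ge (y + 1) τ with h | h
          · rw [x1 y (by omega)] at h3 ⊢
            rw [x1 _ h]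
            rw [k1 _ h, k1 y (by omega)] at h4
            exact hP.inc y hy h3 h4
          · rcases Nat.lt_or_ge y τ with h' | h'
            · exfalso
              have h5 : y = τ - 1 := by omega
              rw [k1 y h', k2 _ h, h5] at h4
              omega
            · rw [x2' y h'] at h3 ⊢
              rw [x2' _ h]
              unfold na at h3 ⊢
              omega
        lastκ := by
          rw [k2 (R - 1) (by omega), k2 (R - 2) (by omega)]
        lastx := by
          intro _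
          rw [k2 (R - 1) (by omega), x2' (R - 1) (by omega)]
          unfold na
          omega }
  · intro z hz
    unfold uz
    refine Finset.sum_congr rfl fun c _ => ?_
    exact va_congr (fun y hy => k1 y (by omega)) (fun y hy => x1 y (by omega)) c
  · unfold uz
    have h3 : κ τ ∈ Finset.range N := Finset.mem_range.2 hN
    rw [← Finset.add_sum_erase _ _ h3, ← Finset.add_sum_erase _ _ h3]
    have h4 : ∑ c ∈ (Finset.range N).erase (κ τ), va (m c) R κ2 x2 c τ =
        ∑ c ∈ (Finset.range N).erase (κ τ), va (m c) R κ x c τ := by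
      refine Finset.sum_congr rfl fun c hc => ?_
      refine va_congr' kle (fun y hy => x1 y hy) c ?_
      rw [k2 τ le_rfl]
      exact (Finset.ne_of_mem_erase hc).symm
    have h5 : va (m (κ τ)) R κ2 x2 (κ τ) τ = 0 := by
      unfold va nn
      rw [k2 τ le_rfl, if_neg (lt_irrefl _), if_neg (lt_irrefl _), if_pos rfl, x2' τ le_rfl]
      unfold na
      omega
    have h6 : va (m (κ τ)) R κ x (κ τ) τ = x τ := by
      unfold va nn
      rw [if_neg (lt_irrefl _), if_neg (lt_irrefl _), if_pos rfl]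
    rw [h4, h5, h6]
    omega

/-- numerical facts -/
theorem num {μ R K b l Lg q v : ℕ} (hp : Par4 μ R K b l Lg q) (h1 : 1280 * (2 ^ q * v) ≤ b * l)
    (h2 : b * l ≤ 2560 * (2 ^ q * v)) :
    1 ≤ μ ∧ 100 * μ ≤ R ∧ l < 2 ^ q * v ∧ 2 ^ q * v ≤ μ ∧ 1 ≤ l := by
  obtain ⟨hl, hR, hLg, -, -, hb, hb2, -⟩ := hp
  have e1 : 2 ^ 42 * l ≤ b * l := by
    refine Nat.mul_le_mul_right _ ?_
    calc 2 ^ 42 = 2 ^ 42 * 1 := (mul_one _).symm
      _ ≤ 2 ^ 42 * Lg := Nat.mul_le_mul_left _ hLg
      _ ≤ b := hb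
  have e2 : 2 ^ 33 * (b * l) ≤ μ := by
    calc 2 ^ 33 * (b * l) = 2 ^ 33 * b * 1 * l := by ring
      _ ≤ 2 ^ 33 * b * (q + 1) ^ 2 * l :=
          Nat.mul_le_mul_right _ (Nat.mul_le_mul_left _ (Nat.one_le_pow _ _ (Nat.succ_pos _)))
      _ ≤ μ := hb2
  generalize 2 ^ q * v = w at *
  generalize b * l = B at *
  refine ⟨by omega, hR, by omega, by omega, hl⟩

theorem goalR2 (_hU1 : GoalU1) (hUC : GoalUC) (hR1 : GoalR1) (hR6d : GoalR6d) : GoalR2 := by
  intro m ms M μ δ R N0 N K b l Lg q v lam W hS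
  obtain ⟨n1, n2, n3, n4, n5⟩ := num hS.par hS.vb hS.vc
  obtain ⟨κ1, x1, hpre, hz, hkN, hn0⟩ := hR1 m ms M μ δ R N0 N K b l Lg q v lam W hS
  have hM := hS.μM
  have hRM := hS.RM
  have hd := hS.d1
  have hm : ∀ c < N, 1 ≤ m c ∧ m c + 2 ≤ R := by
    intro c hc
    rcases Nat.lt_or_ge c N0 with h | h
    · have := hS.pre c h
      omega
    · have := hS.main c h hc
      omega
  have hmμ : ∀ c, N0 ≤ c → c < N → m c ≤ μ := fun c h1 h2 => (hS.main c h1 h2).2
  obtain ⟨κ, x, hP, hag, huz⟩ := hUC m R N (R - 1 - μ) κ1 x1 hm (by omega) hpre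
  have hκJ : κ (R - 1 - μ) < N := by
    rw [(hag _ le_rfl).1]
    exact hkN
  have hκ0 : N0 ≤ κ (R - 60 * M) := by
    rw [(hag (R - 60 * M) (by omega)).1]
    exact hn0
  have hex : ∀ z ≤ R - 1 - μ, uz m R N κ x z = lam + 1 + z := by
    intro z hz'
    rw [huz z hz', hz z hz']
  have hB : Bx m M μ R N0 N lam (R - 1 - μ) κ x :=
    { play := hP
      YJ := by omega
      ex := fun z hz' => hex z hz'.le
      exY := (hex _ le_rfl).le
      kN := hκJ
      n0 := hκ0 }
  have h6 := (hR6d m ms M μ δ R N0 N K b l Lg q v lam (R - 1 - μ) W κ x hS hB).2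
    (R - 1 - μ - 2 ^ q * v) (by omega) (by omega)
  obtain ⟨τ, t1, t2, t3⟩ := exists_step l h6
  have hτJ : τ ≤ R - 1 - μ := by omega
  have hMτ : R - 60 * M < τ := by omega
  have hg0 : N0 ≤ κ τ := hκ0.trans (mono_of hP.mono hMτ.le (by omega))
  have hgN : κ τ < N := lt_of_le_of_lt (mono_of hP.mono hτJ (by omega)) hκJ
  have hmg := hmμ _ hg0 hgN
  have hmg1 := (hm _ hgN).1
  obtain ⟨s1, s2, s3⟩ := stop hP (by omega) hmg1 (by omega) t3 hgN
  have hx : x τ < μ := lt_of_lt_of_le (hP.lt τ (by omega) hgN) hmg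
  have hu := hex τ hτJ
  refine ⟨τ, _, _,
    { play := s1
      t1 := by omega
      t2 := by omega
      ex := fun z hz' => by rw [s2 z hz']; exact hex z (by omega)
      t0 := by omega
      t3 := by omega
      g1 := ?_
      g2 := ?_
      pa := ?_
      n0 := ?_ }⟩
  · show (if τ - 1 < τ then κ (τ - 1) else κ τ) < (if τ < τ then κ τ else κ τ)
    rw [if_pos (by omega), if_neg (lt_irrefl _)]
    exact t3
  · show (if τ < τ then κ τ else κ τ) < N
    rw [if_neg (lt_irrefl _)]
    exact hgN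
  · intro y hy _
    show (if y < τ then κ y else κ τ) = (if τ < τ then κ τ else κ τ) ∧
      (if y < τ then x y else na (m (κ τ)) R y) = na (m (if τ < τ then κ τ else κ τ)) R y
    rw [if_neg (not_lt.2 hy), if_neg (not_lt.2 hy), if_neg (lt_irrefl _)]
    exact ⟨rfl, rfl⟩
  · show N0 ≤ (if R - 60 * M < τ then κ (R - 60 * M) else κ τ)
    rw [if_pos hMτ]
    exact hκ0

end Pool.Agent.Helper34.UW
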